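import Pool.Agent.Q143.AR.Tw

/-!
# Semidirect products of free products with groups that permute the factors

Let `C` be a class of groups with the closure properties `Closed` and `ExtClosed`. If `Q` is in `C`
and acts on a free product of copies of `K` by permuting the copies, and if for each copy and each
element of `Q` that preserves it the cyclic extension of `K` which it defines is in `C`, then the
semidirect product is in `C`.
-/

set_option autoImplicit false
set_option linter.unusedSectionVars false
set_option linter.style.haveILetI false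

namespace Pool.Agent.Q143.AR

open Monoid Pool.Agent.Y462.SS Pool.Agent.Q152.WP Pool.Agent.Q105.FJ

variable {C : ∀ (G : Type) [Group G], Prop}

/-- finite products -/
theorem C_pi (hC : Closed C) (X : Type) [hX : Finite X] (G : X → Type) [hG : ∀ x, Group (G x)]
    (h : ∀ x, C (G x)) : C (∀ x, G x) := by
  refine Finite.induction_empty_option (P := fun X : Type => ∀ (G : X → Type)
    (_ : ∀ x, Group (G x)), (∀ x, C (G x)) → C (∀ x, G x)) ?_ ?_ ?_ X G hG h
  · intro α β e hα G _ hG
    refine hC.of_injective (∀ b, G b) (∀ a, G (e a))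
      { toFun := fun f a => f (e a), map_one' := rfl, map_mul' := fun _ _ => rfl } ?_
      (hα (fun a => G (e a)) (fun a => inferInstance) (fun a => hG (e a)))
    intro f g hfg
    funext b
    obtain ⟨a, rfl⟩ := e.surjective b
    exact congrFun hfg a
  · intro G _ _
    haveI : Subsingleton (∀ x : PEmpty, G x) := ⟨fun f g => funext fun x => x.elim⟩
    exact Pool.Agent.Y812.SS.C_subsingleton hC _
  · intro α _ hα G _ hG
    refine hC.of_injective (∀ x : Option α, G x) (G none × (∀ a : α, G (some a)))
      { toFun := fun f => (f none, fun a => f (some a)), map_one' := rfl,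
        map_mul' := fun _ _ => rfl } ?_ (hC.prod _ _ (hG none)
          (hα (fun a => G (some a)) (fun a => inferInstance) (fun a => hG (some a))))
    intro f g hfg
    have h1 := congrArg Prod.fst hfg
    have h2 := congrArg Prod.snd hfg
    funext b
    cases b with
    | none => exact h1
    | some a => exact congrFun h2 a

/-- The map `α : K → K` is induced by an inner automorphism of a group of the class that contains
`K`. -/
def Good (C : ∀ (G : Type) [Group G], Prop) (K : Type) [Group K] (α : K → K) : Prop :=
  ∃ (B : Type) (_ : Group B) (e : K →* B) (b : B), C B ∧ Function.Injective e ∧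
    ∀ k, e (α k) = b * e k * b⁻¹

namespace Twist

variable {Q X K : Type} [Group Q] [Group K]

/-- the condition on the stabilizers -/
def Stab (C : ∀ (G : Type) [Group G], Prop) (T : Twist Q X K) : Prop :=
  ∀ q x, T.a q x = x → Good C K (T.c q x)

/-- the free product is in the class -/
theorem nn_mem (hC : Closed C) (hE : ExtClosed C) (hK : C K) : C (NN X K) := by
  refine hC.of_injective _ (GP (⊥ : SimpleGraph X) K) (nlift (fun x => GP.of x)) ?_
    (gp_mem hC hE K hK X ⊥)
  refine inj_of_left (G := NN X K) (G' := GP (⊥ : SimpleGraph X) K) _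
    (GP.lift (fun x => nof K x) (fun v w h => absurd h (by simp))) ?_
  refine nn_ext (fun x k => ?_)
  rw [MonoidHom.comp_apply, nlift_of, GP.lift_of]
  rfl

section triv

variable (T : Twist Zm X K) (ht : ∀ n x, T.a n x = x)

/-- the automorphisms of a copy -/
def al (x : X) : Zm →* MulAut K where
  toFun n := MonoidHom.toMulEquiv (T.c n x) (T.c n⁻¹ x)
    (by
      ext k
      have h := T.mul n⁻¹ n x k
      rw [ht, inv_mul_cancel, T.one] at h
      exact h.symm)
    (by
      ext k
      have h := T.mul n n⁻¹ x k
      rw [ht, mul_inv_cancel, T.one] at h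
      exact h.symm)
  map_one' := by
    ext k
    exact T.one x k
  map_mul' n m := by
    ext k
    have h := T.mul n m x k
    rw [ht] at h
    exact h

theorem al_apply (x : X) (n : Zm) (k : K) : T.al ht x n k = T.c n x k := rfl

include ht in
theorem triv_mem (hC : Closed C) (hE : ExtClosed C) [Finite X] [Nonempty X] (hT : T.Stab C) :
    C T.TW := by
  classical
  have hg : ∀ x, Good C K (T.c (Multiplicative.ofAdd (1 : ℤ)) x) := fun x => hT _ x (ht _ x)
  choose B hB e b hCB he heb using hg
  have key : ∀ (x : X) (n : Zm) (k : K), e x (T.c n x k) =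
      zpowersHom (B x) (b x) n * e x k * (zpowersHom (B x) (b x) n)⁻¹ := by
    intro x n
    have hm : ∀ m n : Zm, (∀ k, e x (T.c n x k) =
        zpowersHom (B x) (b x) n * e x k * (zpowersHom (B x) (b x) n)⁻¹) →
        (∀ k, e x (T.c m x k) =
        zpowersHom (B x) (b x) m * e x k * (zpowersHom (B x) (b x) m)⁻¹) →
        ∀ k, e x (T.c (m * n) x k) =
        zpowersHom (B x) (b x) (m * n) * e x k * (zpowersHom (B x) (b x) (m * n))⁻¹ := by
      intro m n h1 h2 k
      rw [T.mul, ht, h2, h1, map_mul]
      group
    have hi : ∀ n : Zm, (∀ k, e x (T.c n x k) =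
        zpowersHom (B x) (b x) n * e x k * (zpowersHom (B x) (b x) n)⁻¹) →
        ∀ k, e x (T.c n⁻¹ x k) =
        zpowersHom (B x) (b x) n⁻¹ * e x k * (zpowersHom (B x) (b x) n⁻¹)⁻¹ := by
      intro n h1 k
      have h2 := h1 (T.c n⁻¹ x k)
      have h3 := T.mul n n⁻¹ x k
      rw [ht, mul_inv_cancel, T.one] at h3
      rw [← h3] at h2
      rw [h2, map_inv]
      group
    have h1 : ∀ k, e x (T.c (Multiplicative.ofAdd (1 : ℤ)) x k) =
        zpowersHom (B x) (b x) (Multiplicative.ofAdd (1 : ℤ)) * e x k *
        (zpowersHom (B x) (b x) (Multiplicative.ofAdd (1 : ℤ)))⁻¹ := by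
      intro k
      rw [heb, zpowersHom_apply]
      simp
    have h0 : ∀ m : ℤ, ∀ k, e x (T.c (Multiplicative.ofAdd m) x k) =
        zpowersHom (B x) (b x) (Multiplicative.ofAdd m) * e x k *
        (zpowersHom (B x) (b x) (Multiplicative.ofAdd m))⁻¹ := by
      intro m
      induction m using Int.induction_on with
      | zero =>
        intro k
        rw [ofAdd_zero, T.one, map_one]
        group
      | succ i hi' =>
        rw [ofAdd_add]
        exact hm _ _ h1 hi'
      | pred i hi' =>
        rw [sub_eq_add_neg, ofAdd_add, ofAdd_neg]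
        exact hm _ _ (hi _ h1) hi'
    exact h0 (Multiplicative.toAdd n)
  let v : Zm →* (∀ y, B y) × Zm :=
    MonoidHom.prod (MonoidHom.pi fun y => zpowersHom (B y) (b y)) (MonoidHom.id Zm)
  let u : ∀ x : X, K →* (∀ y, B y) × Zm := fun x =>
    (MonoidHom.inl (∀ y, B y) Zm).comp ((MonoidHom.mulSingle B x).comp (e x))
  have hu1 : ∀ x k, (u x k).1 = Pi.mulSingle x (e x k) := fun x k => rfl
  have hu2 : ∀ x k, (u x k).2 = 1 := fun x k => rfl
  have hv1 : ∀ n y, (v n).1 y = zpowersHom (B y) (b y) n := fun n y => rfl
  have hv2 : ∀ n, (v n).2 = n := fun n => rfl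
  let f : ∀ x, (K ⋊[T.al ht x] Zm) →* (∀ y, B y) × Zm := fun x =>
    SemidirectProduct.lift (u x) v (by
      intro n
      ext k
      · rename_i y
        change (u x (T.c n x k)).1 y = (v n * u x k * (v n)⁻¹).1 y
        rw [hu1, key]
        change _ = (v n).1 y * (u x k).1 y * ((v n).1 y)⁻¹
        rw [hu1, hv1]
        by_cases h : y = x
        · subst h
          rw [Pi.mulSingle_eq_same, Pi.mulSingle_eq_same]
        · rw [Pi.mulSingle_eq_of_ne h, Pi.mulSingle_eq_of_ne h]
          group
      · change (u x (T.c n x k)).2 = (v n).2 * (u x k).2 * ((v n).2)⁻¹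
        rw [hu2, hu2, mul_one, mul_inv_cancel])
  have hf : ∀ x, Function.Injective (f x) := by
    intro x
    rw [injective_iff_map_eq_one]
    rintro ⟨k, n⟩ h
    have h0 : f x ⟨k, n⟩ = u x k * v n := rfl
    rw [h0] at h
    have h2 := congrArg Prod.snd h
    change (u x k).2 * (v n).2 = 1 at h2
    rw [hu2, hv2, one_mul] at h2
    subst h2
    rw [map_one, mul_one] at h
    have h1 := congrArg Prod.fst h
    rw [hu1] at h1
    have h3 := congrFun h1 x
    rw [Pi.mulSingle_eq_same] at h3
    have h4 : k = 1 := he x (by rw [map_one]; exact h3)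
    rw [h4]
    rfl
  have hP : C (Monoid.PushoutI (fun x : X =>
      (SemidirectProduct.inr : Zm →* (K ⋊[T.al ht x] Zm)))) := by
    refine pushout_mem hC hE (fun x => SemidirectProduct.inr_injective) f hf v ?_
      (hC.prod _ _ (C_pi hC X B hCB) hC.int)
    intro x
    refine MonoidHom.ext fun n => ?_
    change f x (SemidirectProduct.inr n) = v n
    rw [SemidirectProduct.lift_inr]
  let φ : ∀ x : X, Zm →* (K ⋊[T.al ht x] Zm) := fun x => SemidirectProduct.inr
  have hbase : ∀ x n, PushoutI.of (φ := φ) x (SemidirectProduct.inr n) = PushoutI.base φ n :=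
    fun x n => PushoutI.of_apply_eq_base φ x n
  let F : T.TW →* Monoid.PushoutI φ := T.lift
    (fun x => (PushoutI.of (φ := φ) x).comp SemidirectProduct.inl) (PushoutI.base φ) (by
      intro n x k
      change PushoutI.of (φ := φ) (T.a n x) (SemidirectProduct.inl (T.c n x k)) = _
      rw [ht, ← hbase x n]
      change _ = PushoutI.of (φ := φ) x (SemidirectProduct.inr n) *
        PushoutI.of (φ := φ) x (SemidirectProduct.inl k) *
        (PushoutI.of (φ := φ) x (SemidirectProduct.inr n))⁻¹
      rw [← map_inv, ← map_mul, ← map_mul, ← T.al_apply ht, SemidirectProduct.inl_aut,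
        map_inv SemidirectProduct.inr])
  let Rx : ∀ x : X, (K ⋊[T.al ht x] Zm) →* T.TW := fun x =>
    SemidirectProduct.lift (T.e x) T.r (by
      intro n
      ext1 k
      change T.e x (T.c n x k) = T.r n * T.e x k * (T.r n)⁻¹
      rw [T.rel, ht])
  have hRr : ∀ x n, Rx x (SemidirectProduct.inr n) = T.r n := fun x n =>
    SemidirectProduct.lift_inr _ _ _ n
  have hRl : ∀ x k, Rx x (SemidirectProduct.inl k) = T.e x k := fun x n =>
    SemidirectProduct.lift_inl _ _ _ n
  let R : Monoid.PushoutI φ →* T.TW := PushoutI.lift Rx T.r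
    (fun x => MonoidHom.ext (fun n => hRr x n))
  refine hC.of_injective _ _ F (inj_of_left F R ?_) hP
  refine T.ext ?_ ?_
  · intro x k
    rw [MonoidHom.comp_apply, T.lift_e]
    change R (PushoutI.of (φ := φ) x (SemidirectProduct.inl k)) = _
    rw [PushoutI.lift_of, hRl]
    rfl
  · intro n
    rw [MonoidHom.comp_apply, T.lift_r, PushoutI.lift_base]
    rfl

end triv

end Twist

end Pool.Agent.Q143.AR
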