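import Pool.Agent.Q143.AR.TF

/-!
# Presentations with relators over cliques which are closed under killing letters

`X` is a set of letters, `p : X → V` a map to the vertex set of a graph `Λ`, `rels` a set of relators
in the letters. The group with this presentation is in the class if and only if the subgroups
generated by the letters over the finite cliques are in the class, provided that the letters of each
relator lie over a clique, and that killing the letters outside a set of vertices maps relators to
relators or to `1`.
-/

set_option autoImplicit false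
set_option linter.unusedSectionVars false
set_option linter.style.haveILetI false

namespace Pool.Agent.Q143.AR

open Monoid Pool.Agent.Y462.SS Pool.Agent.Q152.WP Pool.Agent.Q105.FJ

variable {C : ∀ (G : Type) [Group G], Prop} {V X : Type}

open Classical in
/-- kill the letters whose vertex is not in `S` -/
noncomputable def kill (p : X → V) (S : Set V) : FreeGroup X →* FreeGroup X :=
  FreeGroup.lift (fun x => if p x ∈ S then FreeGroup.of x else 1)

/-- the letters of `w` lie over `S` -/
def Over (p : X → V) (S : Set V) (w : FreeGroup X) : Prop :=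
  w ∈ Subgroup.closure (FreeGroup.of '' {x | p x ∈ S})

/-- The letters of each relator lie over a clique, and the set of relators is closed under killing
the letters outside a set of vertices, up to the trivial relator. -/
structure CliqueRel (Λ : SimpleGraph V) (p : X → V) (rels : Set (FreeGroup X)) : Prop where
  clique : ∀ w ∈ rels, ∃ σ : Set V, Λ.IsClique σ ∧ Over p σ w
  kill : ∀ w ∈ rels, ∀ S : Set V, kill p S w = 1 ∨ kill p S w ∈ rels

variable {Λ : SimpleGraph V} {p : X → V} {rels : Set (FreeGroup X)}

/-- the subgroup generated by the letters over `S` -/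
def gS (p : X → V) (rels : Set (FreeGroup X)) (S : Set V) : Subgroup (PresentedGroup rels) :=
  Subgroup.closure (PresentedGroup.of '' {x | p x ∈ S})

theorem gS_mono {S T : Set V} (h : S ⊆ T) : gS p rels S ≤ gS p rels T :=
  Subgroup.closure_mono (Set.image_mono fun _ hx => h hx)

theorem of_mem_gS {S : Set V} {x : X} (h : p x ∈ S) :
    (PresentedGroup.of x : PresentedGroup rels) ∈ gS p rels S :=
  Subgroup.subset_closure ⟨x, h, rfl⟩

section kappa

variable (hR : CliqueRel Λ p rels)

open Classical in
/-- the retraction -/
noncomputable def kap (S : Set V) : PresentedGroup rels →* PresentedGroup rels :=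
  PresentedGroup.toGroup (rels := rels)
    (f := fun x => if p x ∈ S then (PresentedGroup.of x : PresentedGroup rels) else 1) (by
    intro w hw
    have h1 : FreeGroup.lift (fun x => if p x ∈ S then
        (PresentedGroup.of x : PresentedGroup rels) else 1) =
        (PresentedGroup.mk rels).comp (kill p S) := by
      ext x
      rw [FreeGroup.lift_apply_of, MonoidHom.comp_apply, kill, FreeGroup.lift_apply_of]
      split_ifs with h
      · rfl
      · rw [map_one]
    rw [h1, MonoidHom.comp_apply]
    rcases hR.kill w hw S with h | h
    · rw [h, map_one]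
    · exact PresentedGroup.one_of_mem h)

theorem kap_of_mem (S : Set V) (x : X) (h : p x ∈ S) :
    kap hR S (PresentedGroup.of x) = PresentedGroup.of x := by
  unfold kap
  rw [PresentedGroup.toGroup.of, if_pos h]

theorem kap_of_notMem (S : Set V) (x : X) (h : p x ∉ S) :
    kap hR S (PresentedGroup.of x) = 1 := by
  unfold kap
  rw [PresentedGroup.toGroup.of, if_neg h]

theorem kap_mem (S T : Set V) (g : PresentedGroup rels) (hg : g ∈ gS p rels T) :
    kap hR S g ∈ gS p rels (T ∩ S) := by
  have h1 : gS p rels T ≤ (gS p rels (T ∩ S)).comap (kap hR S) := by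
    refine (Subgroup.closure_le _).2 ?_
    rintro _ ⟨x, hx, rfl⟩
    change kap hR S (PresentedGroup.of x) ∈ gS p rels (T ∩ S)
    by_cases h : p x ∈ S
    · rw [kap_of_mem hR S x h]
      exact of_mem_gS ⟨hx, h⟩
    · rw [kap_of_notMem hR S x h]
      exact Subgroup.one_mem _
  exact h1 hg

theorem kap_fix (S : Set V) (g : PresentedGroup rels) (hg : g ∈ gS p rels S) :
    kap hR S g = g := by
  have h1 : Set.EqOn (kap hR S) (MonoidHom.id _) (gS p rels S) := by
    refine MonoidHom.eqOn_closure ?_
    rintro _ ⟨x, hx, rfl⟩
    exact kap_of_mem hR S x hx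
  exact h1 hg

theorem mem_gS_fin (g : PresentedGroup rels) : ∃ F : Finset V, g ∈ gS p rels (F : Set V) := by
  classical
  have h1 : g ∈ Subgroup.closure (Set.range (PresentedGroup.of (rels := rels))) := by
    rw [PresentedGroup.closure_range_of]
    exact Subgroup.mem_top _
  induction h1 using Subgroup.closure_induction with
  | mem y hy =>
    obtain ⟨x, rfl⟩ := hy
    exact ⟨{p x}, of_mem_gS (by simp)⟩
  | one => exact ⟨∅, Subgroup.one_mem _⟩
  | mul a b _ _ ha hb =>
    obtain ⟨F, ha⟩ := ha
    obtain ⟨F', hb⟩ := hb
    exact ⟨F ∪ F', Subgroup.mul_mem _ (gS_mono (by simp) ha) (gS_mono (by simp) hb)⟩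
  | inv a _ ha =>
    obtain ⟨F, ha⟩ := ha
    exact ⟨F, Subgroup.inv_mem _ ha⟩

/-! ## the amalgamated product -/

variable (Λ) in
/-- the link of `v` in `S` -/
def lkS (S : Set V) (v : V) : Set V := {w | w ∈ S ∧ Λ.Adj v w}

variable (Λ) in
/-- the two vertex sets -/
def two (S : Set V) (v : V) : Bool → Set V
  | false => S \ {v}
  | true => insert v (lkS Λ S v)

theorem lk_two (S : Set V) (v : V) (b : Bool) : lkS Λ S v ⊆ two Λ S v b := by
  intro w hw
  cases b with
  | false => exact ⟨hw.1, fun h => Λ.irrefl (show Λ.Adj v v by
      have h2 := hw.2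
      rwa [Set.mem_singleton_iff.1 h] at h2)⟩
  | true => exact Set.mem_insert_of_mem _ hw

variable (p rels) in
/-- the inclusions -/
def ph (S : Set V) (v : V) (b : Bool) : gS p rels (lkS Λ S v) →* gS p rels (two Λ S v b) :=
  Subgroup.inclusion (gS_mono (lk_two S v b))

/-- the retraction of the star on the link -/
noncomputable def rtr (S : Set V) (v : V) :
    gS p rels (two Λ S v true) →* gS p rels (lkS Λ S v) :=
  ((kap hR (lkS Λ S v)).comp (gS p rels (two Λ S v true)).subtype).codRestrict _ (fun g =>
    gS_mono Set.inter_subset_right (kap_mem hR _ _ _ g.2))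

theorem rtr_ph (S : Set V) (v : V) (h : gS p rels (lkS Λ S v)) :
    rtr hR S v (ph p rels S v true h) = h :=
  Subtype.ext (kap_fix hR _ _ h.2)

/-- the map to one side -/
noncomputable def side (S : Set V) (v : V) (b : Bool) :
    FreeGroup X →* Monoid.PushoutI (ph (Λ := Λ) p rels S v) :=
  (PushoutI.of (φ := ph (Λ := Λ) p rels S v) b).comp
    (((kap hR (two Λ S v b)).comp (PresentedGroup.mk rels)).codRestrict
      (gS p rels (two Λ S v b)) (fun g => gS_mono Set.inter_subset_right
        (kap_mem hR _ Set.univ _ (by
          obtain ⟨F, hF⟩ := mem_gS_fin (p := p) (PresentedGroup.mk rels g)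
          exact gS_mono (Set.subset_univ _) hF))))

theorem side_rel (S : Set V) (v : V) (b : Bool) (w : FreeGroup X) (hw : w ∈ rels) :
    side hR S v b w = 1 := by
  have h1 : PresentedGroup.mk rels w = 1 := PresentedGroup.one_of_mem hw
  have h2 : (((kap hR (two Λ S v b)).comp (PresentedGroup.mk rels)).codRestrict
      (gS p rels (two Λ S v b)) (fun g => gS_mono Set.inter_subset_right
        (kap_mem hR _ Set.univ _ (by
          obtain ⟨F, hF⟩ := mem_gS_fin (p := p) (PresentedGroup.mk rels g)
          exact gS_mono (Set.subset_univ _) hF)))) w = 1 := by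
    apply Subtype.ext
    change kap hR (two Λ S v b) (PresentedGroup.mk rels w) = 1
    rw [h1, map_one]
  change PushoutI.of _ _ = 1
  rw [h2, map_one]

theorem side_of_mem (S : Set V) (v : V) (b : Bool) (x : X) (hx : p x ∈ two Λ S v b) :
    side hR S v b (FreeGroup.of x) =
      PushoutI.of (φ := ph (Λ := Λ) p rels S v) b ⟨PresentedGroup.of x, of_mem_gS hx⟩ := by
  change PushoutI.of _ _ = _
  congr 1
  exact Subtype.ext (kap_of_mem hR _ x hx)

theorem side_of_notMem (S : Set V) (v : V) (b : Bool) (x : X) (hx : p x ∉ two Λ S v b) :
    side hR S v b (FreeGroup.of x) = 1 := by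
  have h2 : (((kap hR (two Λ S v b)).comp (PresentedGroup.mk rels)).codRestrict
      (gS p rels (two Λ S v b)) (fun g => gS_mono Set.inter_subset_right
        (kap_mem hR _ Set.univ _ (by
          obtain ⟨F, hF⟩ := mem_gS_fin (p := p) (PresentedGroup.mk rels g)
          exact gS_mono (Set.subset_univ _) hF)))) (FreeGroup.of x) = 1 :=
    Subtype.ext (kap_of_notMem hR _ x hx)
  change PushoutI.of _ _ = 1
  rw [h2, map_one]

theorem side_lk (S : Set V) (v : V) (x : X) (hx : p x ∈ lkS Λ S v) :
    side hR S v false (FreeGroup.of x) = side hR S v true (FreeGroup.of x) := by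
  rw [side_of_mem hR S v false x (lk_two S v false hx),
    side_of_mem hR S v true x (lk_two S v true hx)]
  have h1 := fun b => PushoutI.of_apply_eq_base (ph (Λ := Λ) p rels S v) b
    (⟨PresentedGroup.of x, of_mem_gS hx⟩ : gS p rels (lkS Λ S v))
  exact (h1 false).trans (h1 true).symm

open Classical in
/-- the homomorphism to the amalgamated product -/
noncomputable def toP (S : Set V) (v : V) :
    PresentedGroup rels →* Monoid.PushoutI (ph (Λ := Λ) p rels S v) :=
  PresentedGroup.toGroup (rels := rels)
    (f := fun x => side hR S v (decide (p x = v)) (FreeGroup.of x)) (by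
    intro w hw
    obtain ⟨σ, hσ, hw2⟩ := hR.clique w hw
    have key : ∀ b : Bool, (∀ x, p x ∈ σ → side hR S v (decide (p x = v)) (FreeGroup.of x) =
        side hR S v b (FreeGroup.of x)) → FreeGroup.lift (fun x =>
        side hR S v (decide (p x = v)) (FreeGroup.of x)) w = 1 := by
      intro b hb
      have h1 : Set.EqOn (FreeGroup.lift (fun x =>
          side hR S v (decide (p x = v)) (FreeGroup.of x))) (side hR S v b)
          (Subgroup.closure (FreeGroup.of '' {x | p x ∈ σ})) := by
        refine MonoidHom.eqOn_closure ?_
        rintro _ ⟨x, hx, rfl⟩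
        rw [FreeGroup.lift_apply_of]
        exact hb x hx
      rw [h1 hw2]
      exact side_rel hR S v b w hw
    by_cases hv : v ∈ σ
    · refine key true (fun x hx => ?_)
      by_cases hxv : p x = v
      · rw [decide_eq_true hxv]
      · rw [decide_eq_false hxv]
        have hadj : Λ.Adj v (p x) := hσ hv hx (fun h => hxv h.symm)
        by_cases hxS : p x ∈ S
        · exact side_lk hR S v x ⟨hxS, hadj⟩
        · rw [side_of_notMem hR S v false x (fun h => hxS h.1),
            side_of_notMem hR S v true x (fun h => by
              rcases h with h | h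
              · exact hxv h
              · exact hxS h.1)]
    · refine key false (fun x hx => ?_)
      have hxv : p x ≠ v := fun h => hv (h ▸ hx)
      rw [decide_eq_false hxv])

open Classical in
theorem toP_of_eq (S : Set V) (v : V) (x : X) (h : p x = v) :
    toP hR S v (PresentedGroup.of x) = side hR S v true (FreeGroup.of x) := by
  unfold toP
  rw [PresentedGroup.toGroup.of, decide_eq_true h]

open Classical in
theorem toP_of_ne (S : Set V) (v : V) (x : X) (h : p x ≠ v) :
    toP hR S v (PresentedGroup.of x) = side hR S v false (FreeGroup.of x) := by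
  unfold toP
  rw [PresentedGroup.toGroup.of, decide_eq_false h]

/-- the map back -/
noncomputable def fromP (S : Set V) (v : V) :
    Monoid.PushoutI (ph (Λ := Λ) p rels S v) →* PresentedGroup rels :=
  PushoutI.lift (fun b => (gS p rels (two Λ S v b)).subtype) (gS p rels (lkS Λ S v)).subtype
    (fun _ => MonoidHom.ext fun _ => rfl)

theorem fromP_side (S : Set V) (v : V) (b : Bool) (w : FreeGroup X) :
    fromP S v (side hR S v b w) = kap hR (two Λ S v b) (PresentedGroup.mk rels w) := by
  exact (PushoutI.lift_of _ _ _ _).trans rfl

theorem fromP_toP (S : Set V) (v : V) (hv : v ∈ S) :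
    (fromP S v).comp (toP hR S v) = kap hR S := by
  refine PresentedGroup.ext (fun x => ?_)
  rw [MonoidHom.comp_apply]
  by_cases hxS : p x ∈ S
  · rw [kap_of_mem hR S x hxS]
    by_cases hxv : p x = v
    · rw [toP_of_eq hR S v x hxv, fromP_side]
      exact kap_of_mem hR _ x (Or.inl hxv)
    · rw [toP_of_ne hR S v x hxv, fromP_side]
      exact kap_of_mem hR _ x ⟨hxS, hxv⟩
  · rw [kap_of_notMem hR S x hxS]
    have hxv : p x ≠ v := fun h => hxS (h ▸ hv)
    rw [toP_of_ne hR S v x hxv, fromP_side]
    exact kap_of_notMem hR _ x (fun h => hxS h.1)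

theorem toP_inj (S : Set V) (v : V) (hv : v ∈ S) :
    Function.Injective ((toP hR S v).comp (gS p rels S).subtype) := by
  intro a b hab
  apply Subtype.ext
  have h1 := congrArg (fromP (Λ := Λ) (p := p) (rels := rels) S v) hab
  have h2 : ∀ g : gS p rels S, fromP S v (toP hR S v g) = (g : PresentedGroup rels) := by
    intro g
    have h3 := DFunLike.congr_fun (fromP_toP hR S v hv) (g : PresentedGroup rels)
    rw [MonoidHom.comp_apply] at h3
    rw [h3, kap_fix hR S _ g.2]
  change fromP S v (toP hR S v a) = fromP S v (toP hR S v b) at h1
  rwa [h2, h2] at h1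

/-- the inclusion of the link is injective and the retraction splits it -/
theorem ph_inj (S : Set V) (v : V) (b : Bool) :
    Function.Injective (ph (Λ := Λ) p rels S v b) := Subgroup.inclusion_injective _

include hR in
/-- induction on the number of vertices -/
theorem fin_ind (P : ∀ (G : Type) [Group G], Prop)
    (hinj : ∀ (G H : Type) [Group G] [Group H] (f : G →* H), Function.Injective f → P H → P G)
    (hret : ∀ (H : Type) [Group H] (G : Bool → Type) [∀ i, Group (G i)] (φ : ∀ i, H →* G i),
        Function.Injective (φ false) → ∀ r : G true →* H, (∀ h, r (φ true h) = h) →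
          (∀ i, P (G i)) → P (Monoid.PushoutI φ))
    (hcl : ∀ σ : Finset V, Λ.IsClique (σ : Set V) → P (gS p rels (σ : Set V))) :
    ∀ (n : ℕ) (S : Finset V), S.card = n → P (gS p rels (S : Set V)) := by
  classical
  intro n
  induction n using Nat.strong_induction_on with
  | _ n ih =>
    intro S hn
    by_cases hS : Λ.IsClique (S : Set V)
    · exact hcl S hS
    · have hex : ∃ v ∈ S, ∃ u ∈ S, u ≠ v ∧ ¬ Λ.Adj v u := by
        by_contra hno
        push Not at hno
        exact hS (fun v hv u hu huv => hno v hv u hu huv.symm)
      obtain ⟨v, hv, u, hu, huv, hadj⟩ := hex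
      have key : ∀ b : Bool, P (gS p rels (two Λ (S : Set V) v b)) := by
        intro b
        have hfin : (two Λ (S : Set V) v b).Finite := by
          cases b with
          | false => exact S.finite_toSet.subset Set.sdiff_subset
          | true =>
            refine (S.finite_toSet).subset ?_
            rintro w (rfl | hw)
            · exact hv
            · exact hw.1
        have hlt : hfin.toFinset.card < n := by
          rw [← hn]
          refine Finset.card_lt_card ?_
          rw [Finset.ssubset_iff_of_subset (by
            intro w hw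
            rw [Set.Finite.mem_toFinset] at hw
            cases b with
            | false => exact hw.1
            | true =>
              rcases hw with rfl | hw
              · exact hv
              · exact hw.1)]
          cases b with
          | false => exact ⟨v, hv, fun h => by
              rw [Set.Finite.mem_toFinset] at h
              exact h.2 rfl⟩
          | true => exact ⟨u, hu, fun h => by
              rw [Set.Finite.mem_toFinset] at h
              rcases h with h | h
              · exact huv h
              · exact hadj h.2⟩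
        have h1 := ih _ hlt hfin.toFinset rfl
        rwa [Set.Finite.coe_toFinset] at h1
      refine hinj _ _ _ (toP_inj hR (S : Set V) v hv) ?_
      exact hret _ _ _ (ph_inj _ v false) (rtr hR (S : Set V) v)
        (rtr_ph hR (S : Set V) v) key

end kappa

/-- **Presentations over cliques, closed under killing letters.** -/
theorem clique_mem (hC : Closed C) (hE : ExtClosed C) (hR : CliqueRel Λ p rels) :
    C (PresentedGroup rels) ↔
      ∀ σ : Finset V, Λ.IsClique (σ : Set V) → C (gS p rels (σ : Set V)) := by
  classical
  constructor
  · exact fun h σ _ => of_sub hC _ h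
  · intro h
    refine Pool.Agent.Y430.SS.of_directed hC _ (Finset V) (fun i j => ⟨i ∪ j,
      Finset.subset_union_left, Finset.subset_union_right⟩) (fun S => gS p rels (S : Set V))
      (fun S T hST => gS_mono (by exact_mod_cast hST)) (fun g => mem_gS_fin g) (fun S => ?_)
    exact fin_ind hR C (fun G H _ _ f hf hH => hC.of_injective G H f hf hH)
      (fun _ _ _ _ _ h0 r hr hG => retract_mem hC hE h0 r hr hG) h _ S rfl

/-- the torsion-free case -/
theorem clique_tf (hR : CliqueRel Λ p rels) : TF (PresentedGroup rels) ↔
      ∀ σ : Finset V, Λ.IsClique (σ : Set V) → TF (gS p rels (σ : Set V)) := by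
  constructor
  · exact fun h σ _ => TF.inj _ (gS p rels (σ : Set V)).subtype_injective h
  · intro h g hg
    obtain ⟨S, hS⟩ := mem_gS_fin (p := p) g
    have h1 : TF (gS p rels (S : Set V)) :=
      fin_ind hR TF (fun G H _ _ f hf hH => TF.inj f hf hH)
      (fun _ _ _ _ _ h0 r hr hG => tf_retract h0 r hr hG) h _ S rfl
    have h2 : IsOfFinOrder (⟨g, hS⟩ : gS p rels (S : Set V)) := by
      rw [isOfFinOrder_iff_pow_eq_one] at hg ⊢
      obtain ⟨n, hn, hn'⟩ := hg
      exact ⟨n, hn, Subtype.ext hn'⟩
    exact congrArg Subtype.val (h1 _ h2)

end Pool.Agent.Q143.AR
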