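import Pool.Agent.Q143.AR.Mem

/-!
# Semidirect products of free products with groups that permute the factors: the general case
-/

set_option autoImplicit false
set_option linter.unusedSectionVars false
set_option linter.style.haveILetI false

namespace Pool.Agent.Q143.AR

open Monoid Pool.Agent.Y462.SS Pool.Agent.Q152.WP Pool.Agent.Q105.FJ

variable {C : ∀ (G : Type) [Group G], Prop}

namespace Twist

variable {Q X K : Type} [Group Q] [Group K]

theorem Stab.pull {T : Twist Q X K} (h : T.Stab C) {Q' : Type} [Group Q'] (ρ : Q' →* Q) :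
    (T.pull ρ).Stab C := fun q x hq => h (ρ q) x hq

theorem Stab.res {T : Twist Q X K} (h : T.Stab C) (S : Set X)
    (hS : ∀ q x, x ∈ S → T.a q x ∈ S) : (T.res S hS).Stab C :=
  fun q x hq => h q x.1 (congrArg Subtype.val hq)

/-- finite sets -/
theorem fin_mem (hC : Closed C) (hE : ExtClosed C) [Finite X] (T : Twist Zm X K)
    (hT : T.Stab C) : C T.TW := by
  classical
  rcases isEmpty_or_nonempty X with hX | hX
  · refine hC.of_injective _ Zm SemidirectProduct.rightHom ?_ hC.int
    intro g h hgh
    refine SemidirectProduct.ext ?_ hgh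
    have key : ∀ z : NN X K, z = 1 := fun z =>
      nn_ind (motive := fun z => z = 1) rfl (fun x => hX.elim x)
        (fun a b ha hb => by rw [ha, hb, one_mul]) z
    rw [key g.left, key h.left]
  · haveI : Finite (Equiv.Perm X) := inferInstance
    set L : ℕ := Nat.card (Equiv.Perm X) with hL
    have hL0 : L ≠ 0 := Nat.card_pos.ne'
    let q : Zm := Multiplicative.ofAdd (L : ℤ)
    have hq : ¬ IsOfFinOrder q := by
      intro h
      rw [isOfFinOrder_ofAdd_iff] at h
      have h2 := (isAddTorsionFree_iff_not_isOfFinAddOrder.1 (inferInstance :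
        IsAddTorsionFree ℤ)) (a := (L : ℤ)) (by exact_mod_cast hL0)
      exact h2 h
    have hi : (Subgroup.zpowers q).index ≠ 0 := by
      have h4 : (Subgroup.zpowers q).index = (AddSubgroup.zmultiples (L : ℤ)).index := rfl
      rw [h4, Int.index_zmultiples, Int.natAbs_natCast]
      exact hL0
    haveI : (Subgroup.zpowers q).FiniteIndex := ⟨hi⟩
    refine hC.finiteIndex _ ((Subgroup.zpowers q).comap (SemidirectProduct.rightHom :
      T.TW →* Zm)) ⟨?_⟩ ?_
    · rw [Subgroup.index_comap_of_surjective _ SemidirectProduct.rightHom_surjective]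
      exact hi
    obtain ⟨f, hf⟩ := T.over_inj q hq
    refine hC.of_injective _ _ f hf (triv_mem _ ?_ hC hE (hT.pull _))
    intro n x
    change T.a (zpowersHom Zm q n) x = x
    have h1 : T.a (zpowersHom Zm q n) = 1 := by
      have h2 : zpowersHom Zm q n = (Multiplicative.ofAdd (Multiplicative.toAdd n)) ^ L := by
        rw [zpowersHom_apply]
        apply Multiplicative.toAdd.injective
        change (Multiplicative.toAdd n) • (L : ℤ) = (L : ℕ) • (Multiplicative.toAdd n)
        simp [mul_comm]
      rw [h2, map_pow, hL]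
      exact pow_card_eq_one'
    rw [h1]
    rfl

/-- the orbit of a point -/
def orb (T : Twist Zm X K) (x : X) : Set X := Set.range (fun n : Zm => T.a n x)

theorem mem_orb_self (T : Twist Zm X K) (x : X) : x ∈ T.orb x :=
  ⟨1, by
    change T.a 1 x = x
    rw [map_one]
    rfl⟩

theorem orb_a (T : Twist Zm X K) (n : Zm) (x : X) : T.orb (T.a n x) = T.orb x := by
  ext y
  constructor
  · rintro ⟨m, rfl⟩
    refine ⟨m * n, ?_⟩
    change T.a (m * n) x = T.a m (T.a n x)
    rw [map_mul]
    rfl
  · rintro ⟨m, rfl⟩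
    refine ⟨m * n⁻¹, ?_⟩
    change T.a (m * n⁻¹) (T.a n x) = T.a m x
    rw [map_mul]
    change T.a m (T.a n⁻¹ (T.a n x)) = T.a m x
    rw [T.a_inv]

/-- the part of the semidirect product given by an invariant subset -/
def part (T : Twist Q X K) (S : Set X) (hS : ∀ q x, x ∈ S → T.a q x ∈ S) : Subgroup T.TW :=
  (T.inc S hS).range

theorem mem_part (T : Twist Q X K) (S : Set X) (hS : ∀ q x, x ∈ S → T.a q x ∈ S) (g : T.TW)
    (h : g.left ∈ (ninc K S).range) : g ∈ T.part S hS := by
  obtain ⟨z, hz⟩ := h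
  exact ⟨⟨z, g.right⟩, SemidirectProduct.ext hz rfl⟩

theorem ninc_range_mono {S S' : Set X} (h : S ⊆ S') :
    (ninc K S).range ≤ (ninc K S').range := by
  rintro _ ⟨z, rfl⟩
  refine nn_ind (motive := fun z => ninc K S z ∈ (ninc K S').range) ?_ ?_ ?_ z
  · rw [map_one]
    exact Subgroup.one_mem _
  · intro x k
    refine ⟨nof K ⟨x.1, h x.2⟩ k, ?_⟩
    unfold ninc
    rw [nlift_of, nlift_of]
  · intro a b ha hb
    rw [map_mul]
    exact Subgroup.mul_mem _ ha hb

/-- all the orbits are finite -/
theorem forb_mem (hC : Closed C) (hE : ExtClosed C) (T : Twist Zm X K) (hT : T.Stab C)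
    (hX : ∀ x, (T.orb x).Finite) : C T.TW := by
  classical
  let S : Finset X → Set X := fun F => ⋃ x ∈ F, T.orb x
  have hS : ∀ F : Finset X, ∀ n x, x ∈ S F → T.a n x ∈ S F := by
    intro F n x hx
    simp only [S, Set.mem_iUnion] at hx ⊢
    obtain ⟨y, hy, hx⟩ := hx
    refine ⟨y, hy, ?_⟩
    obtain ⟨m, rfl⟩ := hx
    refine ⟨n * m, ?_⟩
    change T.a (n * m) y = _
    rw [map_mul]
    rfl
  refine Pool.Agent.Y430.SS.of_directed hC _ (Finset X) (fun i j => ⟨i ∪ j,
    Finset.subset_union_left, Finset.subset_union_right⟩) (fun F => T.part (S F) (hS F)) ?_ ?_ ?_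
  · rintro F F' hF g ⟨h, rfl⟩
    refine T.mem_part _ _ _ (ninc_range_mono ?_ ⟨h.left, rfl⟩)
    exact Set.biUnion_subset_biUnion_left hF
  · intro g
    have key : ∀ z : NN X K, ∃ F : Finset X, z ∈ (ninc K (S F)).range := by
      intro z
      refine nn_ind (motive := fun z => ∃ F : Finset X, z ∈ (ninc K (S F)).range) ?_ ?_ ?_ z
      · exact ⟨∅, Subgroup.one_mem _⟩
      · intro x k
        have hx : x ∈ S {x} := by
          simp only [S, Set.mem_iUnion]
          exact ⟨x, by simp, T.mem_orb_self x⟩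
        exact ⟨{x}, nof K ⟨x, hx⟩ k, nlift_of _ _ _⟩
      · rintro a b ⟨F, ha⟩ ⟨F', hb⟩
        refine ⟨F ∪ F', Subgroup.mul_mem _ (ninc_range_mono ?_ ha) (ninc_range_mono ?_ hb)⟩
        · exact Set.biUnion_subset_biUnion_left Finset.subset_union_left
        · exact Set.biUnion_subset_biUnion_left Finset.subset_union_right
    obtain ⟨F, hF⟩ := key g.left
    exact ⟨F, T.mem_part _ _ _ hF⟩
  · intro F
    haveI : Finite (S F) := (Set.Finite.biUnion F.finite_toSet (fun x _ => hX x)).to_subtype
    exact Pool.Agent.Y812.SS.C_equiv hC (MonoidHom.ofInjective (T.inc_inj (S F) (hS F))).symm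
      (fin_mem hC hE _ (hT.res (S F) (hS F)))

end Twist

end Pool.Agent.Q143.AR
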