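import Pool.Agent.Q143.AR.Mem2

/-!
# Semidirect products of free products with groups that permute the factors: main theorem
-/

set_option autoImplicit false
set_option linter.unusedSectionVars false
set_option linter.style.haveILetI false

namespace Pool.Agent.Q143.AR

open Monoid Pool.Agent.Y462.SS Pool.Agent.Q152.WP Pool.Agent.Q105.FJ

variable {C : ∀ (G : Type) [Group G], Prop}

namespace Twist

variable {Q X K : Type} [Group Q] [Group K]

theorem orb_finite (T : Twist Zm X K) (x : X) (n : Zm) (hn : n ≠ 1) (h : T.a n x = x) :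
    (T.orb x).Finite := by
  letI : MulAction Zm X := MulAction.compHom X T.a
  exact orbit_finite x n hn h

/-- the action of an infinite cyclic group -/
theorem int_mem (hC : Closed C) (hE : ExtClosed C) (T : Twist Zm X K) (hK : C K)
    (hT : T.Stab C) : C T.TW := by
  classical
  -- representatives
  have hne : ∀ x, (T.orb x).Nonempty := fun x => ⟨x, T.mem_orb_self x⟩
  have hsome : ∀ (s t : Set X) (hs : s.Nonempty) (ht : t.Nonempty), s = t →
      hs.some = ht.some := by
    rintro s _ hs ht rfl
    rfl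
  let r : X → X := fun x => (hne x).some
  have hr2 : ∀ (k : Zm) (x : X), r (T.a k x) = r x := fun k x => hsome _ _ _ _ (T.orb_a k x)
  have hr : ∀ x, ∃ n : Zm, T.a n (r x) = x := by
    intro x
    obtain ⟨n, hn⟩ := (hne x).some_mem
    refine ⟨n⁻¹, ?_⟩
    change T.a n x = r x at hn
    rw [← hn, T.a_inv]
  choose n hn using hr
  have hn2 : ∀ (k : Zm) (x : X), ¬ (T.orb x).Finite → n (T.a k x) = k * n x := by
    intro k x hx
    have h1 := hn (T.a k x)
    rw [hr2] at h1
    by_contra hne'
    have h2 : T.a (k * n x) (r x) = T.a k x := by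
      rw [map_mul]
      change T.a k (T.a (n x) (r x)) = _
      rw [hn]
    have h3 : T.a ((k * n x)⁻¹ * n (T.a k x)) (r x) = r x := by
      rw [map_mul]
      change T.a (k * n x)⁻¹ (T.a (n (T.a k x)) (r x)) = r x
      rw [h1, ← h2, T.a_inv]
    have h4 : (k * n x)⁻¹ * n (T.a k x) ≠ 1 := by
      intro h5
      exact hne' (inv_mul_eq_one.1 h5).symm
    have h5 := T.orb_finite (r x) _ h4 h3
    apply hx
    rw [← hn x, T.orb_a]
    exact h5
  have hS : ∀ (q : Zm) (x : X), x ∈ {x | (T.orb x).Finite} → T.a q x ∈ {x | (T.orb x).Finite} := by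
    intro q x hx
    change (T.orb (T.a q x)).Finite
    rw [T.orb_a]
    exact hx
  let S : Set X := {x | (T.orb x).Finite}
  let V := Monoid.Coprod (T.res S hS).TW (NN X K)
  let c : Zm →* V := Monoid.Coprod.inl.comp (T.res S hS).r
  let w : X → K →* V := fun x => (MulAut.conj (c (n x))).toMonoidHom.comp
    (Monoid.Coprod.inr.comp ((nof K (r x)).comp (T.c (n x)⁻¹ x)))
  let u : X → K →* V := fun x => if h : x ∈ S then
    Monoid.Coprod.inl.comp ((T.res S hS).e ⟨x, h⟩) else w x
  have hu : ∀ (q : Zm) (x : X) (k : K), u (T.a q x) (T.c q x k) = c q * u x k * (c q)⁻¹ := by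
    intro q x k
    by_cases hx : x ∈ S
    · have hx' : T.a q x ∈ S := hS q x hx
      have e1 : u x = Monoid.Coprod.inl.comp ((T.res S hS).e ⟨x, hx⟩) := dif_pos hx
      have e2 : u (T.a q x) = Monoid.Coprod.inl.comp ((T.res S hS).e ⟨T.a q x, hx'⟩) :=
        dif_pos hx'
      rw [e1, e2]
      change Monoid.Coprod.inl _ = Monoid.Coprod.inl _ * Monoid.Coprod.inl _ *
        (Monoid.Coprod.inl _)⁻¹
      rw [← map_inv, ← map_mul, ← map_mul, (T.res S hS).rel]
      rfl
    · have hx' : T.a q x ∉ S := by
        intro h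
        apply hx
        change (T.orb (T.a q x)).Finite at h
        rwa [T.orb_a] at h
      have e1 : u x = w x := dif_neg hx
      have e2 : u (T.a q x) = w (T.a q x) := dif_neg hx'
      rw [e1, e2]
      change c (n (T.a q x)) * Monoid.Coprod.inr (nof K (r (T.a q x))
        (T.c (n (T.a q x))⁻¹ (T.a q x) (T.c q x k))) * (c (n (T.a q x)))⁻¹ =
        c q * (c (n x) * Monoid.Coprod.inr (nof K (r x) (T.c (n x)⁻¹ x k)) * (c (n x))⁻¹) *
          (c q)⁻¹
      rw [hr2, hn2 q x hx, mul_inv_rev, T.mul, T.a_inv, T.inv_c, map_mul, mul_inv_rev]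
      simp only [mul_assoc]
  let E : T.TW →* V := T.lift u c hu
  let R : V →* T.TW := Monoid.Coprod.lift (T.inc S hS) (nlift (fun x => T.e x))
  have hRl : ∀ y, R (Monoid.Coprod.inl y) = T.inc S hS y := fun y => Monoid.Coprod.lift_apply_inl _ _ _
  have hRr : ∀ x k, R (Monoid.Coprod.inr (nof K x k)) = T.e x k := fun x k => by
    change Monoid.Coprod.lift _ _ _ = _
    rw [Monoid.Coprod.lift_apply_inr, nlift_of]
  have hRc : ∀ q, R (c q) = T.r q := by
    intro q
    change R (Monoid.Coprod.inl ((T.res S hS).r q)) = _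
    rw [hRl, inc_r]
  refine hC.of_injective _ V E (inj_of_left E R (T.ext ?_ ?_))
    (hC.coprod _ _ (forb_mem hC hE _ (hT.res S hS) ?_) (nn_mem hC hE hK))
  · intro x k
    rw [MonoidHom.comp_apply, T.lift_e]
    change R (u x k) = T.e x k
    by_cases hx : x ∈ S
    · have e1 : u x = Monoid.Coprod.inl.comp ((T.res S hS).e ⟨x, hx⟩) := dif_pos hx
      rw [e1]
      change R (Monoid.Coprod.inl _) = _
      rw [hRl, inc_e]
    · have e1 : u x = w x := dif_neg hx
      rw [e1]
      change R (c (n x) * Monoid.Coprod.inr (nof K (r x) (T.c (n x)⁻¹ x k)) * (c (n x))⁻¹) = _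
      rw [map_mul, map_mul, map_inv, hRc, hRr, T.rel, hn]
      congr 1
      have h1 : r x = T.a (n x)⁻¹ x := by
        have h0 := T.a_inv (n x) (r x)
        rw [hn] at h0
        exact h0.symm
      rw [h1]
      have h2 := T.mul (n x) (n x)⁻¹ x k
      rw [mul_inv_cancel, T.one] at h2
      exact h2.symm
  · intro q
    rw [MonoidHom.comp_apply, T.lift_r]
    exact hRc q
  · rintro ⟨x, hx⟩
    have h2 : (Subtype.val '' ((T.res S hS).orb ⟨x, hx⟩)) ⊆ T.orb x := by
      rintro _ ⟨_, ⟨k, rfl⟩, rfl⟩
      exact ⟨k, rfl⟩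
    exact Set.Finite.of_finite_image (Set.Finite.subset hx h2) Subtype.val_injective.injOn

/-- **Free products whose factors are permuted.** -/
theorem mem (hC : Closed C) (hE : ExtClosed C) (T : Twist Q X K) (hQ : C Q) (hK : C K)
    (hT : T.Stab C) : C T.TW := by
  refine hE _ Q SemidirectProduct.rightHom SemidirectProduct.rightHom_surjective hQ ?_ ?_
  · refine hC.of_injective _ (NN X K)
      { toFun := fun g => g.1.left
        map_one' := rfl
        map_mul' := fun a b => ?_ } ?_ (nn_mem hC hE hK)
    · have ha : a.1.right = 1 := a.2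
      change a.1.left * T.act a.1.right b.1.left = a.1.left * b.1.left
      rw [ha, map_one]
      rfl
    · intro a b hab
      apply Subtype.ext
      have ha : a.1.right = 1 := a.2
      have hb : b.1.right = 1 := b.2
      exact SemidirectProduct.ext hab (ha.trans hb.symm)
  · intro q hq
    obtain ⟨f, hf⟩ := T.over_inj q hq
    exact hC.of_injective _ _ f hf (int_mem hC hE _ hK (hT.pull _))

end Twist

end Pool.Agent.Q143.AR
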