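import Pool.Agent.Q143.AR.Mem3

/-!
# Amalgamated products over a retract

If `H` is a subgroup of `A` and a retract of `B`, the amalgamated product `A *_H B` is the semidirect
product of a free product of copies of the kernel of `B → H`, indexed by `A / H`, with `A`. So it is
in the class if `A` and `B` are.
-/

set_option autoImplicit false
set_option linter.unusedSectionVars false
set_option linter.style.haveILetI false

namespace Pool.Agent.Q143.AR

open Monoid Pool.Agent.Y462.SS Pool.Agent.Q152.WP Pool.Agent.Q105.FJ

variable {C : ∀ (G : Type) [Group G], Prop}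

section twist

variable {H A B : Type} [Group H] [Group A] [Group B] (f : H →* A) (hf : Function.Injective f)
  (g : H →* B) (r : B →* H) (hr : ∀ h, r (g h) = h)

open Classical in
/-- a section -/
noncomputable def sec (x : A ⧸ f.range) : A := if x = ((1 : A) : A ⧸ f.range) then 1 else x.out

theorem sec_mk (x : A ⧸ f.range) : ((sec f x : A) : A ⧸ f.range) = x := by
  unfold sec
  split_ifs with h
  · exact h.symm
  · exact Quotient.out_eq' x

theorem sec_one : sec f ((1 : A) : A ⧸ f.range) = 1 := if_pos rfl

theorem ex_coc (q : A) (x : A ⧸ f.range) : ∃ h : H, f h = (sec f (q • x))⁻¹ * q * sec f x := by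
  have h1 : (sec f (q • x))⁻¹ * (q * sec f x) ∈ f.range := by
    rw [← QuotientGroup.eq, sec_mk]
    conv_lhs => rw [← sec_mk f x]
    rfl
  obtain ⟨h, hh⟩ := h1
  exact ⟨h, by rw [hh, mul_assoc]⟩

/-- the cocycle -/
noncomputable def coc (q : A) (x : A ⧸ f.range) : H := (ex_coc f q x).choose

theorem f_coc (q : A) (x : A ⧸ f.range) : f (coc f q x) = (sec f (q • x))⁻¹ * q * sec f x :=
  (ex_coc f q x).choose_spec

include hf in
theorem coc_one (x : A ⧸ f.range) : coc f 1 x = 1 := by
  apply hf
  rw [f_coc, one_smul, map_one]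
  group

include hf in
theorem coc_mul (q q' : A) (x : A ⧸ f.range) : coc f (q * q') x = coc f q (q' • x) * coc f q' x := by
  apply hf
  rw [map_mul, f_coc, f_coc, f_coc, mul_smul]
  group

include hf in
theorem coc_base (h : H) : coc f (f h) ((1 : A) : A ⧸ f.range) = h := by
  apply hf
  have h1 : (f h) • ((1 : A) : A ⧸ f.range) = ((1 : A) : A ⧸ f.range) := by
    change ((f h * 1 : A) : A ⧸ f.range) = _
    rw [mul_one, QuotientGroup.eq]
    simp
  rw [f_coc, h1, sec_one]
  group

/-- the twisted permutation of the copies of the kernel -/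
noncomputable def rt : Twist A (A ⧸ f.range) r.ker where
  a := MulAction.toPermHom A (A ⧸ f.range)
  c q x := (MulAut.conjNormal (g (coc f q x)) : r.ker ≃* r.ker).toMonoidHom
  one x k := by
    change MulAut.conjNormal (g (coc f 1 x)) k = k
    rw [coc_one f hf, map_one, map_one]
    rfl
  mul q q' x k := by
    change MulAut.conjNormal (g (coc f (q * q') x)) k =
      MulAut.conjNormal (g (coc f q (q' • x))) (MulAut.conjNormal (g (coc f q' x)) k)
    rw [coc_mul f hf, map_mul, map_mul]
    rfl

theorem rt_a (q : A) (x : A ⧸ f.range) : (rt f hf g r).a q x = q • x := rfl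

theorem rt_c (q : A) (x : A ⧸ f.range) (k : r.ker) : (((rt f hf g r).c q x k : r.ker) : B) =
    g (coc f q x) * k * (g (coc f q x))⁻¹ := by
  change ((MulAut.conjNormal (g (coc f q x)) k : r.ker) : B) = _
  rw [MulAut.conjNormal_apply]

theorem rt_stab (hB : C B) : (rt f hf g r).Stab C := by
  intro q x _
  exact ⟨B, inferInstance, r.ker.subtype, g (coc f q x), hB, Subtype.val_injective,
    fun k => rt_c f hf g r q x k⟩

include hr in
theorem kp (b : B) : b * (g (r b))⁻¹ ∈ r.ker := by
  rw [MonoidHom.mem_ker, map_mul, map_inv, hr, mul_inv_cancel]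

/-- the image of `B` -/
noncomputable def psiB : B →* (rt f hf g r).TW where
  toFun b := (rt f hf g r).e ((1 : A) : A ⧸ f.range) ⟨b * (g (r b))⁻¹, kp g r hr b⟩ *
    (rt f hf g r).r (f (r b))
  map_one' := by
    have h1 : (⟨(1 : B) * (g (r 1))⁻¹, kp g r hr 1⟩ : r.ker) = 1 := by
      apply Subtype.ext
      simp
    rw [h1, map_one, map_one, map_one, map_one, one_mul]
  map_mul' b b' := by
    have h2 := (rt f hf g r).rel (f (r b)) ((1 : A) : A ⧸ f.range)
      ⟨b' * (g (r b'))⁻¹, kp g r hr b'⟩
    have h3 : (rt f hf g r).a (f (r b)) ((1 : A) : A ⧸ f.range) = ((1 : A) : A ⧸ f.range) := by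
      change ((f (r b) * 1 : A) : A ⧸ f.range) = _
      rw [mul_one, QuotientGroup.eq]
      simp
    rw [h3] at h2
    have h4 : (⟨b * b' * (g (r (b * b')))⁻¹, kp g r hr (b * b')⟩ : r.ker) =
        ⟨b * (g (r b))⁻¹, kp g r hr b⟩ * (rt f hf g r).c (f (r b)) ((1 : A) : A ⧸ f.range)
          ⟨b' * (g (r b'))⁻¹, kp g r hr b'⟩ := by
      apply Subtype.ext
      rw [Subgroup.coe_mul, rt_c, coc_base f hf]
      simp only [map_mul]
      group
    rw [h4, map_mul, ← h2, map_mul r, map_mul f, map_mul (rt f hf g r).r]
    group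

end twist

section pushout

variable {H : Type} [Group H] {G : Bool → Type} [∀ i, Group (G i)] {φ : ∀ i, H →* G i}

/-- The amalgamated product embeds in the semidirect product. -/
theorem retract_embeds (h0 : Function.Injective (φ false))
    (r : G true →* H) (hr : ∀ h, r (φ true h) = h) :
    ∃ F : Monoid.PushoutI φ →* (rt (φ false) h0 (φ true) r).TW, Function.Injective F := by
  let T := rt (φ false) h0 (φ true) r
  let F : Monoid.PushoutI φ →* T.TW := PushoutI.lift
    (fun i => Bool.rec (motive := fun i => G i →* T.TW) T.r (psiB (φ false) h0 (φ true) r hr) i)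
    (T.r.comp (φ false)) (by
      intro i
      cases i with
      | false => rfl
      | true =>
        refine MonoidHom.ext fun h => ?_
        change T.e _ ⟨φ true h * (φ true (r (φ true h)))⁻¹, _⟩ * T.r (φ false (r (φ true h))) =
          T.r (φ false h)
        have h1 : (⟨φ true h * (φ true (r (φ true h)))⁻¹, kp (φ true) r hr (φ true h)⟩ :
            r.ker) = 1 := by
          apply Subtype.ext
          change φ true h * (φ true (r (φ true h)))⁻¹ = 1
          rw [hr, mul_inv_cancel]
        rw [h1, map_one, one_mul, hr])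
  have hb : ∀ h, PushoutI.of (φ := φ) true (φ true h) = PushoutI.of (φ := φ) false (φ false h) := by
    intro h
    rw [PushoutI.of_apply_eq_base, PushoutI.of_apply_eq_base]
  let R : T.TW →* Monoid.PushoutI φ := T.lift
    (fun x => (MulAut.conj (PushoutI.of (φ := φ) false (sec (φ false) x))).toMonoidHom.comp
      ((PushoutI.of (φ := φ) true).comp r.ker.subtype)) (PushoutI.of (φ := φ) false) (by
      intro q x k
      change PushoutI.of (φ := φ) false (sec (φ false) (q • x)) *
        PushoutI.of (φ := φ) true ((T.c q x k : r.ker) : G true) *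
        (PushoutI.of (φ := φ) false (sec (φ false) (q • x)))⁻¹ =
        PushoutI.of (φ := φ) false q * (PushoutI.of (φ := φ) false (sec (φ false) x) *
          PushoutI.of (φ := φ) true (k : G true) *
          (PushoutI.of (φ := φ) false (sec (φ false) x))⁻¹) * (PushoutI.of (φ := φ) false q)⁻¹
      rw [rt_c, map_mul, map_mul, map_inv (PushoutI.of (φ := φ) true), hb, f_coc]
      simp only [map_mul, map_inv]
      group)
  have hRe : ∀ x (k : r.ker), R (T.e x k) = PushoutI.of (φ := φ) false (sec (φ false) x) *
      PushoutI.of (φ := φ) true (k : G true) *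
      (PushoutI.of (φ := φ) false (sec (φ false) x))⁻¹ := fun x k => T.lift_e _ _ _ x k
  have hRr : ∀ q, R (T.r q) = PushoutI.of (φ := φ) false q := fun q => T.lift_r _ _ _ q
  refine ⟨F, Twist.inj_of_left F R ?_⟩
  refine PushoutI.hom_ext ?_ ?_
  · intro i
    refine MonoidHom.ext fun b => ?_
    change R (F (PushoutI.of (φ := φ) i b)) = PushoutI.of (φ := φ) i b
    rw [PushoutI.lift_of]
    cases i with
    | false => exact hRr b
    | true =>
      change R (T.e ((1 : G false) : G false ⧸ (φ false).range)
        ⟨b * (φ true (r b))⁻¹, kp (φ true) r hr b⟩ * T.r (φ false (r b))) = _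
      rw [map_mul, hRe, hRr, sec_one, ← hb]
      simp only [map_one, one_mul, inv_one, mul_one, map_mul, map_inv, inv_mul_cancel_right]
  · refine MonoidHom.ext fun h => ?_
    change R (F (PushoutI.base φ h)) = PushoutI.base φ h
    rw [PushoutI.lift_base]
    change R (T.r (φ false h)) = _
    rw [hRr, PushoutI.of_apply_eq_base]

/-- **Amalgamated products over a retract.** -/
theorem retract_mem (hC : Closed C) (hE : ExtClosed C) (h0 : Function.Injective (φ false))
    (r : G true →* H) (hr : ∀ h, r (φ true h) = h) (hG : ∀ i, C (G i)) :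
    C (Monoid.PushoutI φ) := by
  obtain ⟨F, hF⟩ := retract_embeds h0 r hr
  exact hC.of_injective _ _ F hF ((rt (φ false) h0 (φ true) r).mem hC hE (hG false)
    (of_sub hC _ (hG true)) (rt_stab _ _ _ _ (hG true)))

end pushout

end Pool.Agent.Q143.AR
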