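import Pool.Agent.Q143.AR.Ret
import Pool.Agent.Q105.FJ.TF

/-!
# Torsion-free free products with permuted factors, and amalgamated products over a retract
-/

set_option autoImplicit false
set_option linter.unusedSectionVars false

namespace Pool.Agent.Q143.AR

open Monoid Pool.Agent.Q105.FJ

theorem tf_nn {X K : Type} [Group K] (hK : TF K) : TF (NN X K) := by
  refine TF.inj (H := GP (⊥ : SimpleGraph X) K) (nlift (fun x => GP.of x)) ?_
    (TF.gp K hK X ⊥)
  refine Twist.inj_of_left (G := NN X K) (G' := GP (⊥ : SimpleGraph X) K) _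
    (GP.lift (fun x => nof K x) (fun v w h => absurd h (by simp))) ?_
  refine nn_ext (fun x k => ?_)
  rw [MonoidHom.comp_apply, nlift_of, GP.lift_of]
  rfl

theorem tf_tw {Q X K : Type} [Group Q] [Group K] (T : Twist Q X K) (hQ : TF Q) (hK : TF K) :
    TF T.TW := TF.semi (tf_nn hK) hQ

variable {H : Type} [Group H] {G : Bool → Type} [∀ i, Group (G i)] {φ : ∀ i, H →* G i}

/-- torsion-free amalgamated products over a retract -/
theorem tf_retract (h0 : Function.Injective (φ false))
    (r : G true →* H) (hr : ∀ h, r (φ true h) = h) (hG : ∀ i, TF (G i)) :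
    TF (Monoid.PushoutI φ) := by
  obtain ⟨F, hF⟩ := retract_embeds h0 r hr
  exact TF.inj F hF (tf_tw _ (hG false) (TF.inj r.ker.subtype Subtype.val_injective (hG true)))

end Pool.Agent.Q143.AR
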