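import Pool.Agent.Q105.FJ.GraphMem

/-!
# Twisted permutations of the factors of a free product

`NN X K` is the free product of copies of the group `K` indexed by the set `X`. A `Twist` is an
action of a group `Q` on `NN X K` which permutes the factors: the element `q` maps the copy with
index `x` to the copy with index `q x`, by an endomorphism `c(q, x)` of `K`. `TW` is the semidirect
product.
-/

set_option autoImplicit false
set_option linter.unusedSectionVars false
set_option linter.style.haveILetI false

namespace Pool.Agent.Q143.AR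

open Monoid Pool.Agent.Y462.SS Pool.Agent.Q152.WP Pool.Agent.Q105.FJ

/-- the free product of copies of `K` -/
abbrev NN (X K : Type) [Group K] : Type := CoprodI (fun _ : X => K)

/-- the copy of `K` with index `x` -/
def nof {X : Type} (K : Type) [Group K] (x : X) : K →* NN X K :=
  CoprodI.of (M := fun _ : X => K) (i := x)

/-- the universal property -/
def nlift {X K G : Type} [Group K] [Group G] (u : X → K →* G) : NN X K →* G :=
  CoprodI.lift (M := fun _ : X => K) u

@[simp] theorem nlift_of {X K G : Type} [Group K] [Group G] (u : X → K →* G) (x : X) (k : K) :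
    nlift u (nof K x k) = u x k := CoprodI.lift_of (M := fun _ : X => K) u k

theorem nn_ext {X K G : Type} [Group K] [Group G] {f g : NN X K →* G}
    (h : ∀ x k, f (nof K x k) = g (nof K x k)) : f = g :=
  CoprodI.ext_hom _ _ (fun x => by ext k; exact h x k)

theorem nn_ind {X K : Type} [Group K] {motive : NN X K → Prop} (one : motive 1)
    (gen : ∀ x k, motive (nof K x k)) (mul : ∀ a b, motive a → motive b → motive (a * b))
    (z : NN X K) : motive z := by
  induction z using CoprodI.induction_on with
  | one => exact one
  | of i m => exact gen i m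
  | mul a b ha hb => exact mul a b ha hb

/-- An action of `Q` on the free product of copies of `K` indexed by `X` which permutes the copies. -/
structure Twist (Q X K : Type) [Group Q] [Group K] where
  /-- the permutations of the index set -/
  a : Q →* Equiv.Perm X
  /-- the maps of the copies -/
  c : Q → X → (K →* K)
  one : ∀ x k, c 1 x k = k
  mul : ∀ q r x k, c (q * r) x k = c q (a r x) (c r x k)

namespace Twist

variable {Q X K : Type} [Group Q] [Group K] (T : Twist Q X K)

theorem inv_c (q : Q) (x : X) (k : K) : T.c q⁻¹ (T.a q x) (T.c q x k) = k := by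
  rw [← T.mul, inv_mul_cancel, T.one]

theorem a_inv (q : Q) (x : X) : T.a q⁻¹ (T.a q x) = x := by
  rw [← Equiv.Perm.mul_apply, ← map_mul, inv_mul_cancel, map_one, Equiv.Perm.one_apply]

theorem a_inv' (q : Q) (x : X) : T.a q (T.a q⁻¹ x) = x := by
  rw [← Equiv.Perm.mul_apply, ← map_mul, mul_inv_cancel, map_one, Equiv.Perm.one_apply]

/-- the endomorphism of the free product given by `q` -/
def hom (q : Q) : NN X K →* NN X K := nlift (fun x => (nof K (T.a q x)).comp (T.c q x))

@[simp] theorem hom_of (q : Q) (x : X) (k : K) :
    T.hom q (nof K x k) = nof K (T.a q x) (T.c q x k) := nlift_of _ _ _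

theorem hom_one : T.hom 1 = MonoidHom.id _ := by
  refine nn_ext (fun x k => ?_)
  rw [hom_of, T.one, map_one]
  rfl

theorem hom_mul (q r : Q) : T.hom (q * r) = (T.hom q).comp (T.hom r) := by
  refine nn_ext (fun x k => ?_)
  rw [hom_of, MonoidHom.comp_apply, hom_of, hom_of, T.mul, map_mul]
  rfl

/-- the action -/
def act : Q →* MulAut (NN X K) where
  toFun q := MonoidHom.toMulEquiv (T.hom q) (T.hom q⁻¹)
    (by rw [← hom_mul, inv_mul_cancel, hom_one]) (by rw [← hom_mul, mul_inv_cancel, hom_one])
  map_one' := by
    ext z
    exact DFunLike.congr_fun T.hom_one z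
  map_mul' q r := by
    ext z
    exact DFunLike.congr_fun (T.hom_mul q r) z

theorem act_apply (q : Q) (z : NN X K) : T.act q z = T.hom q z := rfl

@[simp] theorem act_of (q : Q) (x : X) (k : K) :
    T.act q (nof K x k) = nof K (T.a q x) (T.c q x k) := T.hom_of q x k

/-- the semidirect product -/
abbrev TW : Type := NN X K ⋊[T.act] Q

/-- the copies of `K` -/
def e (x : X) : K →* T.TW := SemidirectProduct.inl.comp (nof K x)

/-- the complement -/
def r : Q →* T.TW := SemidirectProduct.inr

theorem rel (q : Q) (x : X) (k : K) :
    T.r q * T.e x k * (T.r q)⁻¹ = T.e (T.a q x) (T.c q x k) := by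
  change SemidirectProduct.inr q * SemidirectProduct.inl (nof K x k) *
    (SemidirectProduct.inr q)⁻¹ = SemidirectProduct.inl _
  rw [← act_of, SemidirectProduct.inl_aut, map_inv]

/-- the universal property of the semidirect product -/
def lift {G : Type} [Group G] (u : X → K →* G) (v : Q →* G)
    (h : ∀ q x k, u (T.a q x) (T.c q x k) = v q * u x k * (v q)⁻¹) : T.TW →* G :=
  SemidirectProduct.lift (nlift u) v (by
    intro q
    refine nn_ext (fun x k => ?_)
    change nlift u (T.act q (nof K x k)) = v q * nlift u (nof K x k) * (v q)⁻¹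
    rw [act_of, nlift_of, nlift_of, h])

theorem lift_e {G : Type} [Group G] (u : X → K →* G) (v : Q →* G)
    (h : ∀ q x k, u (T.a q x) (T.c q x k) = v q * u x k * (v q)⁻¹) (x : X) (k : K) :
    T.lift u v h (T.e x k) = u x k := by
  change SemidirectProduct.lift _ _ _ (SemidirectProduct.inl (nof K x k)) = _
  rw [SemidirectProduct.lift_inl, nlift_of]

theorem lift_r {G : Type} [Group G] (u : X → K →* G) (v : Q →* G)
    (h : ∀ q x k, u (T.a q x) (T.c q x k) = v q * u x k * (v q)⁻¹) (q : Q) :
    T.lift u v h (T.r q) = v q := by
  change SemidirectProduct.lift _ _ _ (SemidirectProduct.inr q) = _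
  rw [SemidirectProduct.lift_inr]

theorem ext {G : Type} [Group G] {f g : T.TW →* G} (h1 : ∀ x k, f (T.e x k) = g (T.e x k))
    (h2 : ∀ q, f (T.r q) = g (T.r q)) : f = g := by
  refine SemidirectProduct.hom_ext ?_ ?_
  · exact nn_ext (fun x k => h1 x k)
  · exact MonoidHom.ext (fun q => h2 q)

/-- a homomorphism with a left inverse is injective -/
theorem inj_of_left {G G' : Type} [Group G] [Group G'] (f : G →* G') (g : G' →* G)
    (h : g.comp f = MonoidHom.id G) : Function.Injective f := by
  intro x y hxy
  have h1 := DFunLike.congr_fun h x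
  have h2 := DFunLike.congr_fun h y
  simp only [MonoidHom.comp_apply, MonoidHom.id_apply] at h1 h2
  rw [← h1, ← h2, hxy]

/-! ## change of the group -/

/-- the restriction along a homomorphism -/
def pull {Q' : Type} [Group Q'] (ρ : Q' →* Q) : Twist Q' X K where
  a := T.a.comp ρ
  c q x := T.c (ρ q) x
  one x k := by rw [map_one, T.one]
  mul q r x k := by rw [map_mul, T.mul]; rfl

/-- the restriction to an invariant subset -/
def res (S : Set X) (hS : ∀ q x, x ∈ S → T.a q x ∈ S) : Twist Q S K where
  a :=
    { toFun := fun q =>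
        { toFun := fun x => ⟨T.a q x, hS q x x.2⟩
          invFun := fun x => ⟨T.a q⁻¹ x, hS q⁻¹ x x.2⟩
          left_inv := fun x => Subtype.ext (T.a_inv q x)
          right_inv := fun x => Subtype.ext (T.a_inv' q x) }
      map_one' := by
        ext x
        change T.a 1 x = x
        rw [map_one]
        rfl
      map_mul' := fun q r => by
        ext x
        change T.a (q * r) x = T.a q (T.a r x)
        rw [map_mul]
        rfl }
  c q x := T.c q x
  one x k := T.one x k
  mul q r x k := T.mul q r x k

theorem res_a (S : Set X) (hS : ∀ q x, x ∈ S → T.a q x ∈ S) (q : Q) (x : S) :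
    (((T.res S hS).a q x : S) : X) = T.a q x := rfl

/-- the inclusion of free products -/
def ninc (K : Type) [Group K] (S : Set X) : NN S K →* NN X K := nlift (fun x => nof K x.1)

open Classical in
theorem ninc_inj (S : Set X) : Function.Injective (ninc K S) := by
  refine inj_of_left (G := NN S K) (G' := NN X K) _
    (nlift (X := X) (K := K) (G := NN S K)
      (fun x => if h : x ∈ S then nof K (⟨x, h⟩ : S) else (1 : K →* NN S K))) ?_
  refine nn_ext (fun x k => ?_)
  rw [MonoidHom.comp_apply, ninc, nlift_of, nlift_of, dif_pos x.2]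
  rfl

/-- the inclusion of semidirect products -/
def inc (S : Set X) (hS : ∀ q x, x ∈ S → T.a q x ∈ S) : (T.res S hS).TW →* T.TW :=
  SemidirectProduct.map (ninc K S) (MonoidHom.id Q) (by
    intro q
    refine nn_ext (fun x k => ?_)
    change ninc K S ((T.res S hS).act q (nof K x k)) = T.act q (ninc K S (nof K x k))
    rw [act_of]
    change nlift _ _ = T.act q (nlift _ _)
    rw [nlift_of, nlift_of, act_of]
    rfl)

theorem inc_left (S : Set X) (hS : ∀ q x, x ∈ S → T.a q x ∈ S) (g : (T.res S hS).TW) :
    (T.inc S hS g).left = ninc K S g.left := rfl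

theorem inc_right (S : Set X) (hS : ∀ q x, x ∈ S → T.a q x ∈ S) (g : (T.res S hS).TW) :
    (T.inc S hS g).right = g.right := rfl

theorem inc_e (S : Set X) (hS : ∀ q x, x ∈ S → T.a q x ∈ S) (x : S) (k : K) :
    T.inc S hS ((T.res S hS).e x k) = T.e x.1 k := by
  refine SemidirectProduct.ext ?_ rfl
  change ninc K S (nof K x k) = nof K x.1 k
  exact nlift_of _ _ _

theorem inc_r (S : Set X) (hS : ∀ q x, x ∈ S → T.a q x ∈ S) (q : Q) :
    T.inc S hS ((T.res S hS).r q) = T.r q := by
  refine SemidirectProduct.ext ?_ rfl
  exact map_one _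

theorem inc_inj (S : Set X) (hS : ∀ q x, x ∈ S → T.a q x ∈ S) :
    Function.Injective (T.inc S hS) := by
  intro g g' h
  have h1 := congrArg (fun w : T.TW => w.left) h
  have h2 := congrArg (fun w : T.TW => w.right) h
  exact SemidirectProduct.ext (ninc_inj S h1) h2

/-! ## the preimages of cyclic subgroups -/

theorem over_inj (q : Q) (hq : ¬ IsOfFinOrder q) :
    ∃ f : ((Subgroup.zpowers q).comap (SemidirectProduct.rightHom : T.TW →* Q)) →*
      (T.pull (zpowersHom Q q)).TW, Function.Injective f := by
  have hex : ∀ g : (Subgroup.zpowers q).comap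
      (SemidirectProduct.rightHom : T.TW →* Q), ∃ n : Zm, zpowersHom Q q n = g.1.right := by
    intro g
    obtain ⟨n, hn⟩ := g.2
    exact ⟨Multiplicative.ofAdd n, hn⟩
  choose n hn using hex
  have hinj : Function.Injective (zpowersHom Q q) := by
    intro a b hab
    apply Multiplicative.toAdd.injective
    exact (injective_zpow_iff_not_isOfFinOrder.2 hq) hab
  refine ⟨{ toFun := fun g => ⟨g.1.left, n g⟩
            map_one' := ?_
            map_mul' := fun a b => ?_ }, ?_⟩
  · refine SemidirectProduct.ext rfl ?_
    apply hinj
    change zpowersHom Q q (n 1) = zpowersHom Q q 1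
    rw [hn, map_one]
    rfl
  · refine SemidirectProduct.ext ?_ ?_
    · change a.1.left * T.act a.1.right b.1.left =
        a.1.left * (T.pull (zpowersHom Q q)).act (n a) b.1.left
      rw [← hn a]
      rfl
    · apply hinj
      change zpowersHom Q q (n (a * b)) = zpowersHom Q q (n a * n b)
      rw [map_mul, hn, hn, hn]
      rfl
  · intro a b hab
    apply Subtype.ext
    have h1 : a.1.left = b.1.left := congrArg (fun w : (T.pull (zpowersHom Q q)).TW => w.left) hab
    have h2 : n a = n b := congrArg (fun w : (T.pull (zpowersHom Q q)).TW => w.right) hab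
    refine SemidirectProduct.ext h1 ?_
    rw [← hn a, ← hn b, h2]

end Twist

end Pool.Agent.Q143.AR
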